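import Pool.Agent.W654.SHB.Rkk
import Pool.Agent.W756.SH.Twi
import Pool.Agent.W307.LK.Stm

/-!
Project LK, part FGK: Mordell-Weil groups over multiquadratic fields are finitely generated.
-/

set_option autoImplicit false

open WeierstrassCurve Pool.Agent.W262.SH Pool.Agent.W654.SHB
open scoped Classical

namespace Pool.Agent.W58.LK

/-- finitely generated, with the classical decidability of equality -/
def fgc (W : WeierstrassCurve ℚ) (L : Type) [Field L] [Algebra ℚ L] : Prop :=
  Module.Finite ℤ (Pt W L)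

theorem fg_eq (W : WeierstrassCurve ℚ) (L : Type) [Field L] [Algebra ℚ L] [i : DecidableEq L] :
    Module.Finite ℤ (Pt W L) = fgc W L := by
  unfold fgc
  cases Subsingleton.elim i (fun a b => Classical.propDecidable (a = b))
  rfl

theorem sub_fg {P Q : Type} [AddCommGroup P] [AddCommGroup Q] (h : Module.Finite ℤ P)
    (f : P →ₗ[ℤ] Q) (N : Submodule ℤ Q) (hN : N ≤ LinearMap.range f) : N.FG := by
  have h1 : IsNoetherian ℤ P := isNoetherian_of_isNoetherianRing_of_finite ℤ P
  have h2 : IsNoetherian ℤ (LinearMap.range f) := inferInstance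
  exact (isNoetherian_submodule.1 h2) N hN

theorem step (hT : TWI) {A B D : ℤ} (hA : A ≠ 0) (hB : B ≠ 0) (hAB : A ≠ B) (hD : D ≠ 0)
    {L M : Type} [Field L] [Field M] [Algebra ℚ L] [Algebra ℚ M] (j : L →ₐ[ℚ] M) (σ : M →ₐ[ℚ] M)
    (hσ : ∀ x, σ (σ x) = x) (hfix : ∀ x, σ x = x → ∃ y, j y = x) (s : M)
    (hs : s ^ 2 = (D : M)) (hσs : σ s = -s) (h1 : fgc (E A B) L)
    (h2 : fgc (E (D * A) (D * B)) L) : fgc (E A B) M := by
  unfold fgc at *
  obtain ⟨θ, hθ⟩ := hT A B D hA hB hAB hD
  obtain ⟨hadd, hbij, hneg, hnat⟩ := hθ M s hs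
  set f : Pt (E A B) M →+ Pt (E A B) M := AddMonoidHom.id _ + act (E A B) σ with hf
  have hσσ : ∀ P, act (E A B) σ (act (E A B) σ P) = P := by
    intro P
    rcases P with _ | ⟨x, y, h⟩
    · rfl
    · have h1 : act (E A B) σ (act (E A B) σ (.some x y h)) = .some (σ (σ x)) (σ (σ y))
          (((E A B).toAffine.baseChange_nonsingular σ.injective _ _).2
            (((E A B).toAffine.baseChange_nonsingular σ.injective x y).2 h)) := rfl
      rw [h1, Affine.Point.some.injEq]
      exact ⟨hσ x, hσ y⟩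
  set g : Pt (E A B) M →+ Pt (E (D * A) (D * B)) M := AddMonoidHom.mk' (θ M s) hadd with hg
  refine ⟨Submodule.fg_of_fg_map_of_fg_inf_ker f.toIntLinearMap ?_ ?_⟩
  · rw [Submodule.map_top]
    refine sub_fg h1 (act (E A B) j).toIntLinearMap _ ?_
    rintro _ ⟨P, rfl⟩
    have h2 : act (E A B) σ (P + act (E A B) σ P) = P + act (E A B) σ P := by
      rw [map_add, hσσ, add_comm]
    obtain ⟨Q, hQ⟩ := descend (E A B) j σ hfix _ h2
    exact ⟨Q, hQ⟩
  · rw [top_inf_eq]
    have hinj : Function.Injective g.toIntLinearMap := hbij.1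
    refine Submodule.fg_of_fg_map_injective g.toIntLinearMap hinj ?_
    refine sub_fg h2 (act (E (D * A) (D * B)) j).toIntLinearMap _ ?_
    rintro _ ⟨P, hP, rfl⟩
    have hP0 : P + act (E A B) σ P = 0 := hP
    have hP1 : act (E A B) σ P = -P := (neg_eq_of_add_eq_zero_right hP0).symm
    have h2 : act (E (D * A) (D * B)) σ (θ M s P) = θ M s P := by
      rw [hnat M σ P, hσs, hneg, hP1]
      have h3 : g (-P) = - g P := map_neg g P
      have h4 : θ M s (-P) = - θ M s P := h3
      rw [h4, neg_neg]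
    obtain ⟨Q, hQ⟩ := descend (E (D * A) (D * B)) j σ hfix _ h2
    exact ⟨Q, hQ⟩

theorem fg_of_inj (W : WeierstrassCurve ℚ) {L M : Type} [Field L] [Field M] [Algebra ℚ L]
    [Algebra ℚ M] (j : L →ₐ[ℚ] M) (h : fgc W M) : fgc W L := by
  unfold fgc at *
  have hinj : Function.Injective (act W j).toIntLinearMap :=
    Affine.Point.map_injective (W' := W.toAffine) j
  have h1 : IsNoetherian ℤ (Pt W M) := isNoetherian_of_isNoetherianRing_of_finite ℤ _
  exact Module.Finite.of_injective (act W j).toIntLinearMap hinj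

theorem kd_step (hT : TWI) (n : ℕ) (D : Fin (n + 1) → ℤ) {A B : ℤ} (hA : A ≠ 0) (hB : B ≠ 0)
    (hAB : A ≠ B) (hD : D 0 ≠ 0) (i1 : fgc (E A B) (KD (fun i : Fin n => D i.succ)))
    (i2 : fgc (E (D 0 * A) (D 0 * B)) (KD (fun i : Fin n => D i.succ))) :
    fgc (E A B) (KD D) := by
  have := galQB
  obtain ⟨s, hs⟩ : ∃ s : QB, s ^ 2 = (D 0 : QB) := IsAlgClosed.exists_pow_nat_eq _ (by norm_num)
  by_cases hsK : s ∈ KD (fun i : Fin n => D i.succ)
  · have hK : KD D = KD (fun i : Fin n => D i.succ) := by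
      refine le_antisymm ?_ (kd_le D)
      refine IntermediateField.adjoin_le_iff.2 ?_
      rintro r ⟨i, hr⟩
      rcases Fin.eq_zero_or_eq_succ i with rfl | ⟨k, rfl⟩
      · rcases sq_eq (hr.trans hs.symm) with h | h
        · rw [h]; exact hsK
        · rw [h]; exact neg_mem hsK
      · exact gen_mem (fun i : Fin n => D i.succ) hr
    rw [hK]
    exact i1
  · have h1 : ∃ τ ∈ (KD (fun i : Fin n => D i.succ)).fixingSubgroup, τ s ≠ s := by
      by_contra hcon
      push Not at hcon
      apply hsK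
      rw [← InfiniteGalois.fixedField_fixingSubgroup (KD (fun i : Fin n => D i.succ))]
      rw [IntermediateField.mem_fixedField_iff]
      exact hcon
    obtain ⟨τ, hτ, hτs⟩ := h1
    have hτK : ∀ x ∈ KD (fun i : Fin n => D i.succ), τ x = x :=
      (IntermediateField.mem_fixingSubgroup_iff _ _).1 hτ
    have hτs2 : τ s = -s := by
      have h2 : (τ s) ^ 2 = s ^ 2 := by rw [← map_pow, hs]; simp
      rcases sq_eq h2 with h | h
      · exact absurd h hτs
      · exact h
    set σ : KD D →ₐ[ℚ] KD D := (τ.toAlgHom.comp (KD D).val).codRestrict (KD D).toSubalgebra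
      (fun x => stable D τ.toAlgHom x.2) with hσ
    have hσv : ∀ x : KD D, ((σ x : KD D) : QB) = τ (x : QB) := fun x => rfl
    refine step hT hA hB hAB hD (IntermediateField.inclusion (kd_le D)) σ ?_ ?_
      ⟨s, gen_mem D hs⟩ ?_ ?_ i1 i2
    · intro x
      apply Subtype.ext
      rw [hσv, hσv]
      refine fixes D s hs (τ * τ) ?_ ?_ x x.2
      · intro y hy
        show τ (τ y) = y
        rw [hτK y hy, hτK y hy]
      · show τ (τ s) = s
        rw [hτs2, map_neg, hτs2, neg_neg]
    · intro x hx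
      have hx' : τ (x : QB) = x := by
        have := congrArg (fun z : KD D => (z : QB)) hx
        exact this
      have hxK : (x : QB) ∈ KD (fun i : Fin n => D i.succ) := by
        rw [← InfiniteGalois.fixedField_fixingSubgroup (KD (fun i : Fin n => D i.succ))]
        rw [IntermediateField.mem_fixedField_iff]
        intro g hg
        have hgK : ∀ x ∈ KD (fun i : Fin n => D i.succ), g x = x :=
          (IntermediateField.mem_fixingSubgroup_iff _ _).1 hg
        have h2 : (g s) ^ 2 = s ^ 2 := by rw [← map_pow, hs]; simp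
        rcases sq_eq h2 with h | h
        · exact fixes D s hs g hgK h x x.2
        · have h3 := fixes D s hs (τ⁻¹ * g) (fun y hy => by
            show τ⁻¹ (g y) = y
            rw [hgK y hy]
            exact (AlgEquiv.symm_apply_eq τ).2 (hτK y hy).symm) (by
            show τ⁻¹ (g s) = s
            rw [h]
            exact (AlgEquiv.symm_apply_eq τ).2 hτs2.symm) x x.2
          have h4 : τ⁻¹ (g (x : QB)) = x := h3
          have h5 : g (x : QB) = τ x := (AlgEquiv.symm_apply_eq τ).1 h4
          rw [h5, hx']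
      exact ⟨⟨x, hxK⟩, Subtype.ext rfl⟩
    · apply Subtype.ext
      show s ^ 2 = _
      rw [hs]
      simp
    · apply Subtype.ext
      rw [hσv]
      exact hτs2

theorem fg_kd (hT : TWI) : ∀ (n : ℕ) (D : Fin n → ℤ) (A B : ℤ), A ≠ 0 → B ≠ 0 → A ≠ B →
    (∀ i, D i ≠ 0) → fgc (E A B) (KD D) := by
  intro n
  induction n with
  | zero =>
    intro D A B hA hB hAB hD
    have hK : KD D = ⊥ := by
      rw [eq_bot_iff]
      refine IntermediateField.adjoin_le_iff.2 ?_
      rintro r ⟨i, _⟩
      exact i.elim0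
    set φ : KD D →ₐ[ℚ] ℚ := ((IntermediateField.equivOfEq hK).trans
      (IntermediateField.botEquiv ℚ QB)).toAlgHom with hφ
    have h2 : (E A B).baseChange ℚ = E A B := by
      unfold WeierstrassCurve.baseChange
      exact WeierstrassCurve.map_id _
    have h3 : Module.Finite ℤ (Pt (E A B) ℚ) = Module.Finite ℤ (E A B).toAffine.Point :=
      congrArg (fun W : WeierstrassCurve ℚ => Module.Finite ℤ W.toAffine.Point) h2
    have h4 : Module.Finite ℤ (Pt (E A B) ℚ) := by
      rw [h3]; exact fg A B hA hB hAB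
    rw [fg_eq] at h4
    exact fg_of_inj (E A B) φ h4
  | succ n ih =>
    intro D A B hA hB hAB hD
    exact kd_step hT n D hA hB hAB (hD 0)
      (ih (fun i => D i.succ) A B hA hB hAB (fun i => hD _))
      (ih (fun i => D i.succ) (D 0 * A) (D 0 * B) (mul_ne_zero (hD 0) hA)
        (mul_ne_zero (hD 0) hB) (fun h => hAB (mul_left_cancel₀ (hD 0) h)) (fun i => hD _))

theorem fgp_of_fgc (W : WeierstrassCurve ℚ) (L : Type) [Field L] [Algebra ℚ L] (h : fgc W L) :
    Pool.Agent.W307.LK.FGp W L := by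
  unfold fgc at h
  unfold Pool.Agent.W307.LK.FGp
  exact Module.Finite.iff_addGroup_fg.1 h

theorem fgk : Pool.Agent.W307.LK.FGK := by
  intro l D A B hA hB hAB hD
  exact fgp_of_fgc _ _ (fg_kd Pool.Agent.W756.SH.Twi.twi l D A B hA hB hAB hD)

end Pool.Agent.W58.LK
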